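import Pool.Agent.W2helper75.FD.Stm5

/-!
# Project FD (helper75, MP_e2f79e_pr), piece URQ
-/

set_option autoImplicit false

open MeasureTheory ProbabilityTheory Filter Topology
open scoped ENNReal NNReal

namespace Pool.Agent.W2helper65.FD

open Pool.Agent.W2helper75.FD

lemma fib_card {V : Type} [DecidableEq V] (p : V → ℤ × ℤ) (m : ℕ)
    (hf : ∀ z, {x | p x = z}.Finite ∧ {x | p x = z}.ncard ≤ m) (c : ℤ × ℤ) (A : Finset V)
    (z : ℤ × ℤ) : (A.filter fun x => p x - c = z).card ≤ m := by
  have h := hf (z + c)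
  rw [← Set.ncard_coe_finset]
  refine (Set.ncard_le_ncard ?_ h.1).trans h.2
  intro x hx
  simp only [Finset.coe_filter, Set.mem_setOf_eq] at hx ⊢
  rw [← hx.2]
  abel

theorem urq (h1 : P_CAP) (h2 : P_RECU) (h3 : P_WLKU) : P_URQ := by
  classical
  intro V S _ _ _ _ mv inv hinv hmv p m D K hq L δ hδ
  have hδ2 : (0 : ℝ≥0∞) < δ / 2 := ENNReal.div_pos hδ.ne' (by norm_num)
  obtain ⟨η, hη, hηδ⟩ : ∃ η : ℝ, 0 < η ∧ ENNReal.ofReal η ≤ δ / 2 := by
    obtain ⟨q, hq0, hq1⟩ := ENNReal.lt_iff_exists_nnreal_btwn.1 hδ2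
    exact ⟨q, by exact_mod_cast hq0, by simpa using hq1.le⟩
  obtain ⟨ε, hε, hB⟩ := h2 S L η hη
  have hS0 : (0 : ℝ) < Fintype.card S := by exact_mod_cast Fintype.card_pos
  obtain ⟨F, hF0, hFnn, hF1, M, hFM, hFe⟩ := h1 D
    (ε / ((m + 1) * Fintype.card S * (2 * D + 1) ^ 2)) (by positivity)
  obtain ⟨N, hN⟩ := hB (m * (2 * M + 1) ^ 2)
  obtain ⟨t0, ht0⟩ := h3 S N (δ / 2) hδ2
  refine ⟨t0, fun t ht x y hl => ?_⟩
  refine (ht0 t ht V mv x y).trans ?_
  have hhit : 1 - η ≤ hit mv y N x := by
    have hT : ∀ M : ℕ, (Finset.Icc (-(M : ℤ)) M).card = 2 * M + 1 := by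
      intro M
      rw [Int.card_Icc]
      omega
    have hfib := fib_card p m hq.fib (p y)
    have hsupp : ∀ x', F (p x' - p y) ≠ 0 →
        p x' - p y ∈ Finset.Icc (-(M : ℤ)) M ×ˢ Finset.Icc (-(M : ℤ)) M := by
      intro x' hx'
      have h4 : ¬ M < max (p x' - p y).1.natAbs (p x' - p y).2.natAbs := fun h => hx' (hFM _ h)
      rw [not_lt, max_le_iff] at h4
      simp only [Finset.mem_product, Finset.mem_Icc]
      omega
    have hfin : (Function.support fun x' => F (p x' - p y)).Finite := by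
      have hb : (⋃ z ∈ (Finset.Icc (-(M : ℤ)) M ×ˢ Finset.Icc (-(M : ℤ)) M : Finset (ℤ × ℤ)),
          {x' | p x' = z + p y}).Finite := by
        refine Set.Finite.biUnion (Finset.finite_toSet _) fun z _ => (hq.fib _).1
      refine hb.subset fun x' hx' => ?_
      simp only [Set.mem_iUnion]
      refine ⟨p x' - p y, hsupp x' hx', ?_⟩
      simp
    refine hN V mv inv hinv hmv y (fun x' => F (p x' - p y)) (by simp [hF0]) (fun _ => hFnn _)
      (fun _ => hF1 _) hfin ?_ ?_ x hl
    · rw [Set.ncard_eq_toFinset_card _ hfin]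
      refine (Finset.card_le_mul_card_image (f := fun x' => p x' - p y) hfin.toFinset m
        (fun z _ => hfib _ z)).trans ?_
      refine Nat.mul_le_mul_left _ ?_
      calc _ ≤ (Finset.Icc (-(M : ℤ)) M ×ˢ Finset.Icc (-(M : ℤ)) M).card := by
            refine Finset.card_le_card fun z hz => ?_
            obtain ⟨x', hx', rfl⟩ := Finset.mem_image.1 hz
            exact hsupp x' (by simpa using hx')
        _ = (2 * M + 1) ^ 2 := by
            rw [Finset.card_product, hT]; ring
    · intro A
      set W : Finset (ℤ × ℤ) := Finset.Icc (-(D : ℤ)) D ×ˢ Finset.Icc (-(D : ℤ)) D with hW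
      set B : Finset (ℤ × ℤ) := A.image fun x' => p x' - p y with hBd
      have hWc : (W.card : ℝ) = (2 * D + 1) ^ 2 := by
        rw [hW, Finset.card_product, hT]; push_cast; ring
      have key : ∀ w ∈ W, ∑ x' ∈ A, (F (p x' - p y) - F (p x' - p y + w)) ^ 2 ≤
          (m + 1) * (ε / ((m + 1) * Fintype.card S * (2 * D + 1) ^ 2)) := by
        intro w hw
        simp only [hW, Finset.mem_product, Finset.mem_Icc] at hw
        have e1 := hFe w (by omega) (by omega) B
        rw [Finset.sum_comp (fun z => (F z - F (z + w)) ^ 2) (fun x' => p x' - p y)]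
        calc ∑ b ∈ A.image (fun x' => p x' - p y),
              (A.filter fun a => p a - p y = b).card • (F b - F (b + w)) ^ 2
            ≤ ∑ b ∈ B, ((m : ℝ) + 1) * (F b - F (b + w)) ^ 2 := by
              refine Finset.sum_le_sum fun b _ => ?_
              rw [nsmul_eq_mul]
              refine mul_le_mul_of_nonneg_right ?_ (sq_nonneg _)
              have := hfib A b
              have h5 : ((A.filter fun a => p a - p y = b).card : ℝ) ≤ m := by exact_mod_cast this
              linarith
          _ = ((m : ℝ) + 1) * ∑ b ∈ B, (F b - F (b + w)) ^ 2 := by rw [Finset.mul_sum]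
          _ ≤ _ := by gcongr
      calc ∑ x' ∈ A, ∑ s, (F (p x' - p y) - F (p (mv x' s) - p y)) ^ 2
          ≤ ∑ x' ∈ A, ∑ s : S, ∑ w ∈ W, (F (p x' - p y) - F (p x' - p y + w)) ^ 2 := by
            refine Finset.sum_le_sum fun x' _ => Finset.sum_le_sum fun s _ => ?_
            have hl := hq.lip x' s
            rw [abs_le, abs_le] at hl
            have hw : p (mv x' s) - p x' ∈ W := by
              simp only [hW, Finset.mem_product, Finset.mem_Icc, Prod.fst_sub, Prod.snd_sub]
              omega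
            have h6 : p (mv x' s) - p y = p x' - p y + (p (mv x' s) - p x') := by abel
            rw [h6]
            exact Finset.single_le_sum
              (f := fun w => (F (p x' - p y) - F (p x' - p y + w)) ^ 2)
              (fun _ _ => sq_nonneg _) hw
        _ = ∑ s : S, ∑ w ∈ W, ∑ x' ∈ A, (F (p x' - p y) - F (p x' - p y + w)) ^ 2 := by
            rw [Finset.sum_comm]
            refine Finset.sum_congr rfl fun s _ => ?_
            rw [Finset.sum_comm]
        _ ≤ ∑ s : S, ∑ w ∈ W, (m + 1) * (ε / ((m + 1) * Fintype.card S * (2 * D + 1) ^ 2)) :=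
            Finset.sum_le_sum fun s _ => Finset.sum_le_sum fun w hw => key w hw
        _ = ε := by
            simp only [Finset.sum_const, Finset.card_univ, nsmul_eq_mul, hWc]
            field_simp
  calc ENNReal.ofReal (1 - hit mv y N x) + δ / 2 ≤ ENNReal.ofReal η + δ / 2 := by
        gcongr; linarith
    _ ≤ δ / 2 + δ / 2 := by gcongr
    _ = δ := ENNReal.add_halves δ

end Pool.Agent.W2helper65.FD
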